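import Pool.Agent.H224R2.Mah.Defs

namespace Pool.Agent.H224R2.Mah

open MeasureTheory Set Filter Topology
open scoped ENNReal RealInnerProductSpace

section
variable {n : ℕ} {ι : Type} [Fintype ι]

private lemma mat_posSemidef (a : ι → Fin n → ℝ) (m : ι → ℝ) (hm : ∀ j, 0 ≤ m j) :
    (mat m a).PosSemidef := by
  unfold mat
  apply Matrix.posSemidef_sum
  intro j _
  apply Matrix.PosSemidef.smul _ (hm j)
  have := Matrix.posSemidef_vecMulVec_self_star (a j)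
  simpa using this

private lemma mat_quad (a : ι → Fin n → ℝ) (m : ι → ℝ) (w : Fin n → ℝ) :
    w ⬝ᵥ (Matrix.mulVec (mat m a) w) = ∑ j, m j * (w ⬝ᵥ a j) ^ 2 := by
  unfold mat
  rw [Matrix.sum_mulVec, dotProduct_sum]
  refine Finset.sum_congr rfl fun j _ => ?_
  rw [Matrix.smul_mulVec, dotProduct_smul, Matrix.vecMulVec_mulVec, op_smul_eq_smul,
    dotProduct_smul, dotProduct_comm (a j) w, smul_eq_mul, smul_eq_mul]
  ring

private lemma quad_bound (a : ι → Fin n → ℝ) (m s : ι → ℝ) (w : Fin n → ℝ) (ε : ℝ) (hε : 0 ≤ ε)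
    (hw : Matrix.mulVec (mat m a + ε • (1 : Matrix (Fin n) (Fin n) ℝ)) w = ∑ j, s j • a j) :
    (∑ j, s j • a j) ⬝ᵥ w ≤ ∑ j, (2 * s j * (w ⬝ᵥ a j) - m j * (w ⬝ᵥ a j) ^ 2) := by
  have h1 : (∑ j, s j • a j) ⬝ᵥ w = ∑ j, s j * (w ⬝ᵥ a j) := by
    rw [sum_dotProduct]
    refine Finset.sum_congr rfl fun j _ => ?_
    rw [smul_dotProduct, dotProduct_comm, smul_eq_mul]
  have h2 : w ⬝ᵥ (∑ j, s j • a j) = (∑ j, m j * (w ⬝ᵥ a j) ^ 2) + ε * (w ⬝ᵥ w) := by
    rw [← hw, Matrix.add_mulVec, dotProduct_add, mat_quad, Matrix.smul_mulVec, Matrix.one_mulVec,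
      dotProduct_smul, smul_eq_mul]
  have h3 : 0 ≤ w ⬝ᵥ w := by
    unfold dotProduct
    exact Finset.sum_nonneg fun i _ => mul_self_nonneg _
  have h4 : w ⬝ᵥ (∑ j, s j • a j) = ∑ j, s j * (w ⬝ᵥ a j) := by
    rw [dotProduct_comm, h1]
  have h5 : ∑ j, (2 * s j * (w ⬝ᵥ a j) - m j * (w ⬝ᵥ a j) ^ 2) =
      2 * (∑ j, s j * (w ⬝ᵥ a j)) - ∑ j, m j * (w ⬝ᵥ a j) ^ 2 := by
    rw [Finset.sum_sub_distrib, Finset.mul_sum]
    congr 1
    exact Finset.sum_congr rfl fun j _ => by ring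
  rw [h5, h1]
  have := mul_nonneg hε h3
  nlinarith

private lemma scalar_bound {m s s' c t t' : ℝ} (hm : 0 ≤ m) (hc : 0 ≤ c)
    (h : s ^ 2 + s' ^ 2 ≤ c * m) :
    (2 * s * t - m * t ^ 2) + (2 * s' * t' - m * t' ^ 2) ≤ c := by
  rcases hm.eq_or_lt with h0 | h0
  · subst h0
    have hs : s = 0 := by nlinarith [sq_nonneg s, sq_nonneg s']
    have hs' : s' = 0 := by nlinarith [sq_nonneg s, sq_nonneg s']
    subst hs hs'
    simpa using hc
  · have h1 : m * ((2 * s * t - m * t ^ 2) + (2 * s' * t' - m * t' ^ 2)) ≤ m * c := by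
      nlinarith [sq_nonneg (s - m * t), sq_nonneg (s' - m * t')]
    exact le_of_mul_le_mul_left h1 h0

/-- L1. Linear algebra: `v · adj(M) v ≤ (∑ c_j) det M` if `M = ∑ m_j a_j a_jᵀ`, `v = ∑ s_j a_j`. -/
theorem L1_adj (a : ι → Fin n → ℝ) (m s s' c : ι → ℝ) (hm : ∀ j, 0 ≤ m j) (hc : ∀ j, 0 ≤ c j)
    (h : ∀ j, s j ^ 2 + s' j ^ 2 ≤ c j * m j) :
    (∑ j, s j • a j) ⬝ᵥ (Matrix.mulVec (mat m a).adjugate (∑ j, s j • a j)) +
      (∑ j, s' j • a j) ⬝ᵥ (Matrix.mulVec (mat m a).adjugate (∑ j, s' j • a j)) ≤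
      (∑ j, c j) * (mat m a).det := by
  set v := ∑ j, s j • a j with hv
  set v' := ∑ j, s' j • a j with hv'
  have key : ∀ ε : ℝ, 0 < ε →
      v ⬝ᵥ (Matrix.mulVec (mat m a + ε • (1 : Matrix (Fin n) (Fin n) ℝ)).adjugate v) +
      v' ⬝ᵥ (Matrix.mulVec (mat m a + ε • (1 : Matrix (Fin n) (Fin n) ℝ)).adjugate v') ≤
      (∑ j, c j) * (mat m a + ε • (1 : Matrix (Fin n) (Fin n) ℝ)).det := by
    intro ε hε
    set M := mat m a + ε • (1 : Matrix (Fin n) (Fin n) ℝ) with hM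
    have hpd : M.PosDef := by
      rw [hM, add_comm]
      exact (Matrix.PosDef.one.smul hε).add_posSemidef (mat_posSemidef a m hm)
    have hdet : 0 < M.det := hpd.det_pos
    have hinv : M * M⁻¹ = 1 := Matrix.mul_nonsing_inv _ (isUnit_iff_ne_zero.mpr hdet.ne')
    have hadj : M.adjugate = M.det • M⁻¹ := by
      rw [Matrix.inv_def, smul_smul, Ring.inverse_eq_inv', mul_inv_cancel₀ hdet.ne', one_smul]
    have hw : ∀ x : Fin n → ℝ, Matrix.mulVec M (Matrix.mulVec M⁻¹ x) = x := by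
      intro x
      rw [Matrix.mulVec_mulVec, hinv, Matrix.one_mulVec]
    have b1 := quad_bound a m s (Matrix.mulVec M⁻¹ v) ε hε.le (hw v)
    have b2 := quad_bound a m s' (Matrix.mulVec M⁻¹ v') ε hε.le (hw v')
    rw [hadj, Matrix.smul_mulVec, Matrix.smul_mulVec, dotProduct_smul, dotProduct_smul,
      smul_eq_mul, smul_eq_mul, ← mul_add, mul_comm _ M.det]
    apply mul_le_mul_of_nonneg_left _ hdet.le
    refine (add_le_add b1 b2).trans ?_
    rw [← Finset.sum_add_distrib]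
    exact Finset.sum_le_sum fun j _ => scalar_bound (hm j) (hc j) (h j)
  have hcM : Continuous fun ε : ℝ => mat m a + ε • (1 : Matrix (Fin n) (Fin n) ℝ) :=
    continuous_const.add (continuous_id.smul continuous_const)
  have hL : Continuous fun ε : ℝ =>
      v ⬝ᵥ (Matrix.mulVec (mat m a + ε • (1 : Matrix (Fin n) (Fin n) ℝ)).adjugate v) +
      v' ⬝ᵥ (Matrix.mulVec (mat m a + ε • (1 : Matrix (Fin n) (Fin n) ℝ)).adjugate v') :=
    (continuous_const.dotProduct (hcM.matrix_adjugate.matrix_mulVec continuous_const)).add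
      (continuous_const.dotProduct (hcM.matrix_adjugate.matrix_mulVec continuous_const))
  have hR : Continuous fun ε : ℝ =>
      (∑ j, c j) * (mat m a + ε • (1 : Matrix (Fin n) (Fin n) ℝ)).det :=
    continuous_const.mul hcM.matrix_det
  have tL := (hL.tendsto 0).mono_left (nhdsWithin_le_nhds (s := Ioi (0:ℝ)))
  have tR := (hR.tendsto 0).mono_left (nhdsWithin_le_nhds (s := Ioi (0:ℝ)))
  have := le_of_tendsto_of_tendsto tL tR
    (Filter.eventually_of_mem self_mem_nhdsWithin fun ε hε => key ε hε)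
  simpa using this

end

end Pool.Agent.H224R2.Mah
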